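import Pool.Agent.H624R3.CP.Stmts

open MeasureTheory Metric Real

namespace Pool.Agent.H624R3.CP.CountzH133


lemma lp_sub {d : ℕ} (M : Matrix (Fin d) (Fin d) ℝ) (z w : Fin d → ℤ) :
    lp M (z - w) = lp M z - lp M w := by
  unfold lp
  rw [← WithLp.toLp_sub, ← Matrix.mulVec_sub]
  congr 2
  ext i
  simp

/-- General version with the number of vectors and radius abstracted. -/
lemma count_aux (hP : TaskPACK) (d m : ℕ) (M : Matrix (Fin d) (Fin d) ℝ) (R : ℝ) (hR : 0 < R)
    (lam : ∀ z : Fin d → ℤ, z ≠ 0 → R / 2 < ‖lp M z‖)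
    (free : ∀ v : Fin m → Fin d → ℤ, LinearIndependent ℝ (fun l => lp M (v l)) →
      (fun l => lp M (v l)) ∉ Bset d m ((999 / 1000) * R))
    (p : E d) (T : Finset (Fin d → ℤ)) (hT : ∀ z ∈ T, ‖lp M z - p‖ ≤ (999 / 1000) * R) :
    (T.card : ℝ) ≤ (5 : ℝ) ^ m := by
  classical
  rcases T.eq_empty_or_nonempty with rfl | ⟨z0, hz0⟩
  · simp
  -- the set of differences
  set D : Set (E d) := (fun z => lp M (z - z0)) '' (T : Set (Fin d → ℤ)) with hD
  have hrank : Module.finrank ℝ (Submodule.span ℝ D) ≤ m := by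
    by_contra hcon
    push Not at hcon
    obtain ⟨f, hf1, -, hf3⟩ := Submodule.exists_fun_fin_finrank_span_eq ℝ D
    have hchoose : ∀ i, ∃ z ∈ T, lp M (z - z0) = f i := by
      intro i
      obtain ⟨z, hz, hz'⟩ := hf1 i
      exact ⟨z, by simpa using hz, hz'⟩
    choose z hzT hzf using hchoose
    let e : Fin m → Fin (Module.finrank ℝ (Submodule.span ℝ D)) := Fin.castLE hcon.le
    have he : Function.Injective e := Fin.castLE_injective _
    have hli : LinearIndependent ℝ (fun l => lp M (z (e l) - z0)) := by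
      have : (fun l => lp M (z (e l) - z0)) = f ∘ e := by
        funext l
        simp [hzf]
      rw [this]
      exact hf3.comp e he
    refine free (fun l => z (e l) - z0) hli ?_
    refine ⟨p - lp M z0, ?_, ?_⟩
    · rw [norm_sub_rev]
      exact hT z0 hz0
    · intro l
      have := hT (z (e l)) (hzT _)
      simp only [lp_sub]
      rwa [show lp M (z (e l)) - lp M z0 - (p - lp M z0) = lp M (z (e l)) - p by abel]
  have hsep : ∀ z ∈ T, ∀ w ∈ T, z ≠ w → R / 2 ≤ ‖lp M z - lp M w‖ := by
    intro z _ w _ hzw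
    rw [← lp_sub]
    exact (lam (z - w) (sub_ne_zero.mpr hzw)).le
  have hinj : Set.InjOn (lp M) (T : Set (Fin d → ℤ)) := by
    intro z hz w hw h
    by_contra hzw
    have := hsep z (by simpa using hz) w (by simpa using hw) hzw
    rw [h, sub_self, norm_zero] at this
    linarith
  have hcard : (T.image (lp M)).card = T.card := Finset.card_image_of_injOn hinj
  have := hP d m (T.image (lp M)) (AffineSubspace.mk' (lp M z0) (Submodule.span ℝ D)) p
    ((999 / 1000) * R) (R / 2) (by positivity) (by positivity)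
    (by rw [AffineSubspace.direction_mk']; exact hrank)
    (by
      intro x hx
      obtain ⟨z, hz, rfl⟩ := Finset.mem_image.mp hx
      rw [AffineSubspace.mem_mk', vsub_eq_sub, ← lp_sub]
      exact Submodule.subset_span ⟨z, by simpa using hz, rfl⟩)
    (by
      intro x hx
      obtain ⟨z, hz, rfl⟩ := Finset.mem_image.mp hx
      exact hT z hz)
    (by
      intro x hx y hy hxy
      obtain ⟨z, hz, rfl⟩ := Finset.mem_image.mp hx
      obtain ⟨w, hw, rfl⟩ := Finset.mem_image.mp hy
      exact hsep z hz w hw (fun h => hxy (by rw [h])))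
  rw [hcard] at this
  refine this.trans ?_
  have h1 : (1 + 2 * (999 / 1000 * R) / (R / 2) : ℝ) = 1 + 4 * (999 / 1000) := by
    field_simp
    try ring
  rw [h1]
  exact pow_le_pow_left₀ (by norm_num) (by norm_num) _

theorem taskCOUNTZ : TaskPACK → TaskCOUNTZ := by
  intro hP ε hε
  obtain ⟨C, hC⟩ : ∃ C : ℝ, C = (5 : ℝ) ^ 20000 := ⟨_, rfl⟩
  have hlim : Filter.Tendsto (fun d : ℕ => exp (ε * d)) Filter.atTop Filter.atTop := by
    refine Real.tendsto_exp_atTop.comp ?_
    exact Filter.Tendsto.const_mul_atTop hε tendsto_natCast_atTop_atTop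
  obtain ⟨d0, hd0⟩ := Filter.eventually_atTop.mp (hlim.eventually_ge_atTop C)
  refine ⟨max d0 1, ?_⟩
  intro d hd M hM p T hT
  have hd1 : 1 ≤ d := le_trans (le_max_right _ _) hd
  have hR : 0 < Rd d := by
    unfold Rd
    have : (0 : ℝ) < d := by exact_mod_cast hd1
    positivity
  have h := count_aux hP d 20000 M (Rd d) hR hM.lam hM.free p T hT
  rw [← hC] at h
  exact h.trans (hd0 d (le_trans (le_max_left _ _) hd))

end Pool.Agent.H624R3.CP.CountzH133
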